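import Pool.Agent.KS6_1.Whyb.Count

/-!
# How many countable Whyburn spaces are not D-separable?

In ZFC there are `2 ^ 𝔠` pairwise non-homeomorphic countable regular Whyburn spaces without isolated
points that are not D-separable; this is the largest possible number, because there are only
`2 ^ 𝔠` topologies on a countable set.  Being countable, all of them are separable and d-separable.
So all three versions of Q1 have a positive answer, with the largest possible number of examples.
For the version with d-separable spaces there are examples without isolated points in every infinite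
cardinality.

The spaces consist of countably many copies of one countable crowded example (the closure of the
isolated points is removed from the example of the starting files) and one further point, whose
neighbourhoods contain the copies with numbers in a member of a filter on `ℕ`; the filters are given
by the subsets of an independent family of size `𝔠`.
-/

set_option autoImplicit false

namespace Pool.Agent.Results.MP_c7df87_gt.HomeomorphismTypes

open Set Topology TopologicalSpace
open Cardinal (continuum aleph0 mk)
open Pool.Agent.H94R3.Sigma Pool.Agent.KS6_1.Whyb

/-- The Whyburn property: if `p` is in the closure of `A`, but not in `A`, then the closure of some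
subset `B` of `A` is `B ∪ {p}`. -/
def Whyburn (X : Type) [TopologicalSpace X] : Prop :=
  ∀ (A : Set X) (p : X), p ∈ closure A \ A → ∃ B, B ⊆ A ∧ closure B = B ∪ {p}

/-- **Theorem.** (1) There are a countable set `P` and a set `𝒯` of `2 ^ 𝔠` topologies on `P`, each of
which is regular `T₁`, Whyburn, separable, d-separable, without isolated points and not D-separable,
such that the spaces `(P, s)` and `(P, t)` are not homeomorphic for different `s, t ∈ 𝒯`.
(2) There are at most `2 ^ 𝔠` topologies on a countable set.
(3) For every infinite cardinal `κ` there is a regular `T₁` Whyburn space with `κ` points and no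
isolated point which is d-separable and not D-separable. -/
theorem result :
    (∃ (P : Type) (_ : Countable P) (𝒯 : Set (TopologicalSpace P)),
      mk 𝒯 = 2 ^ continuum.{0} ∧
      (∀ t ∈ 𝒯, @T3Space P t ∧ @Whyburn P t ∧ @SeparableSpace P t ∧ @WeaklyDSeparable P t ∧
        (∀ x, ¬ IsOpen[t] {x}) ∧ ¬ @SelectivelyDSeparable P t) ∧
      ∀ s ∈ 𝒯, ∀ t ∈ 𝒯, s ≠ t → IsEmpty (@Homeomorph P P s t)) ∧
    (∀ (P : Type) [Countable P], mk (TopologicalSpace P) ≤ 2 ^ continuum.{0}) ∧
    ∀ κ : Cardinal.{0}, aleph0 ≤ κ →
      ∃ (X : Type) (_ : TopologicalSpace X), mk X = κ ∧ T3Space X ∧ Whyburn X ∧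
        WeaklyDSeparable X ∧ (∀ x : X, ¬ IsOpen {x}) ∧ ¬ SelectivelyDSeparable X := by
  refine ⟨?_, fun P _ => mk_topologies P, every_cardinality⟩
  obtain ⟨P, hP, 𝒯, h1, h2, h3⟩ := many
  refine ⟨P, hP, 𝒯, h1, fun t ht => ?_, h3⟩
  obtain ⟨a, b, c, d⟩ := h2 t ht
  have hsep : @SeparableSpace P t := by
    let _ := t
    infer_instance
  have hw : @WeaklyDSeparable P t := by
    let _ := t
    exact Pool.Agent.H94R3.Sequential.weaklyDSeparable_of_countable P
  exact ⟨a, b, hsep, hw, c, d⟩

end Pool.Agent.Results.MP_c7df87_gt.HomeomorphismTypes
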